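import Pool.Agent.Helper69.FF.St
import Pool.Agent.Helper53.DV.St

/-!
# Project FF, module T2 (assembly of Theorem 2)
-/

set_option autoImplicit false

open scoped BigOperators
open FF DV

namespace Pool.Agent.Helper95.FF

private lemma norm_le_one_T2 {X : Type} [NormedAddCommGroup X] [NormedSpace ℝ X] {N : ℕ}
    {x : Fin N → X} (hx : Weak2 x) (i : Fin N) : ‖x i‖ ≤ 1 := by
  have h := hx (Pi.single i 1)
  have h1 : ∑ k, (Pi.single i (1 : ℝ) : Fin N → ℝ) k • x k = x i := by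
    rw [Finset.sum_eq_single i]
    · simp
    · intro b _ hb
      simp [Pi.single_eq_of_ne hb]
    · simp
  have h2 : ∑ k, (Pi.single i (1 : ℝ) : Fin N → ℝ) k ^ 2 = 1 := by
    rw [Finset.sum_eq_single i]
    · simp
    · intro b _ hb
      simp [Pi.single_eq_of_ne hb]
    · simp
  rw [h1, h2, Real.sqrt_one] at h
  exact h

private lemma radAvg_nonneg_T2 {X : Type} [NormedAddCommGroup X] [NormedSpace ℝ X] {N : ℕ}
    (x : Fin N → X) : 0 ≤ radAvg x := by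
  unfold radAvg
  positivity

private lemma sqrt_rad2_T2 (hSM : StSM) {X : Type} [NormedAddCommGroup X] [NormedSpace ℝ X] {N : ℕ}
    {x : Fin N → X} (hx : Weak2 x) (p : Seminorm ℝ X) (hp : ∀ y, p y ≤ ‖y‖) :
    Real.sqrt (rad2 p x) ≤ radAvg x + 2 := by
  have h0 := radAvg_nonneg_T2 x
  apply Real.sqrt_le_iff.mpr
  refine ⟨by linarith, ?_⟩
  have h1 : rad2 p x ≤ (∑ s : Fin N → Bool, ‖∑ i, sg (s i) • x i‖ ^ 2) / (2 : ℝ) ^ N := by
    unfold rad2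
    apply div_le_div_of_nonneg_right _ (by positivity)
    apply Finset.sum_le_sum
    intro s _
    exact pow_le_pow_left₀ (apply_nonneg p _) (hp _) 2
  have h2 := hSM X N x hx
  nlinarith

private lemma rad_bound_T2 {d : ℕ} {CE CC ε : ℝ} (hCC : 0 < CC)
    (hε : 0 < ε) (hε2 : ε ≤ 1 / 2) {R I : ℝ} (h1 : R ≤ CC * I) (h2 : I ≤ CE * (1 / ε) ^ (d + 1 + 2)) :
    R + 2 ≤ (CC * CE + 2) * (1 / ε) ^ (d + 3) := by
  have h3 : (1 : ℝ) ≤ (1 / ε) ^ (d + 3) := by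
    apply one_le_pow₀
    rw [le_div_iff₀ hε]
    linarith
  have h4 : CC * I ≤ CC * (CE * (1 / ε) ^ (d + 1 + 2)) := mul_le_mul_of_nonneg_left h2 hCC.le
  have h5 : (1 / ε) ^ (d + 1 + 2) = (1 / ε) ^ (d + 3) := rfl
  rw [h5] at h4
  nlinarith

private lemma scale_T2 {X : Type} [NormedAddCommGroup X] [NormedSpace ℝ X] {k m : ℕ} {ε K : ℝ}
    (hε : 0 < ε) (hε2 : ε ≤ 1 / 2) (hK : 1 / 3 ≤ K) (p : Fin m → Seminorm ℝ X)
    (hple : ∀ j x, p j x ≤ ‖x‖) (hpge : ∀ x, ∃ j, ‖x‖ ≤ (1 + ε / 4) * p j x) (T : Eu k →ₗ[ℝ] X)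
    (hup : ∀ z j, p j (T z) ≤ K * (1 + 3 * (ε / 40)) * ‖z‖)
    (hlo : ∀ z, ∃ j, K * (1 - 3 * (ε / 40)) * ‖z‖ ≤ p j (T z)) : HasEu k ε X := by
  have hc : 0 < K * (1 - 3 * (ε / 40)) := by
    apply mul_pos (by linarith)
    linarith
  refine ⟨(K * (1 - 3 * (ε / 40)))⁻¹ • T, fun z => ?_⟩
  rw [LinearMap.smul_apply, norm_smul, Real.norm_eq_abs, abs_of_pos (inv_pos.mpr hc)]
  constructor
  · obtain ⟨j, hj⟩ := hlo z
    rw [inv_mul_eq_div, le_div_iff₀ hc]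
    calc ‖z‖ * (K * (1 - 3 * (ε / 40))) = K * (1 - 3 * (ε / 40)) * ‖z‖ := by ring
      _ ≤ p j (T z) := hj
      _ ≤ ‖T z‖ := hple j _
  · obtain ⟨j, hj⟩ := hpge (T z)
    rw [inv_mul_eq_div, div_le_iff₀ hc]
    have h1 : (1 + ε / 4) * (1 + 3 * (ε / 40)) ≤ (1 + ε) * (1 - 3 * (ε / 40)) := by nlinarith
    calc ‖T z‖ ≤ (1 + ε / 4) * p j (T z) := hj
      _ ≤ (1 + ε / 4) * (K * (1 + 3 * (ε / 40)) * ‖z‖) :=
          mul_le_mul_of_nonneg_left (hup z j) (by linarith)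
      _ = ((1 + ε / 4) * (1 + 3 * (ε / 40))) * (K * ‖z‖) := by ring
      _ ≤ ((1 + ε) * (1 - 3 * (ε / 40))) * (K * ‖z‖) :=
          mul_le_mul_of_nonneg_right h1 (mul_nonneg (by linarith) (norm_nonneg z))
      _ = (1 + ε) * ‖z‖ * (K * (1 - 3 * (ε / 40))) := by ring

theorem hT2 (hDR2 : DV.StDR2) (hRE : DV.StRE) (hRC : DV.StRC) (hSM : StSM) (hG1a : StG1a)
    (hG1b : StG1b) (hE2 : StE2) (hP2 : StP2) (hCS : StCS) : StT2 := by
  intro d hd
  obtain ⟨C₀, hC₀, hcs⟩ := hCS d hd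
  obtain ⟨CE, hCE, hre⟩ := hRE (d + 1) (by omega)
  obtain ⟨CC, hCC, hrc⟩ := hRC (d + 1) (by omega)
  have hC₁ : 0 < CC * CE + 2 := by positivity
  obtain ⟨C', hC', hp2⟩ := hP2 d hd C₀ (CC * CE + 2) hC₀ hC₁
  refine ⟨max C' 1, lt_max_of_lt_left hC', ?_⟩
  intro ε hε hε2 X _ _ _ m p q A hm hq hA hple hpge hcot hfin
  by_contra hno
  have hm1 : (1 : ℝ) ≤ m := by exact_mod_cast hm
  have hlog : 1 ≤ (1 + Real.log m) ^ 3 := by
    apply one_le_pow₀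
    have := Real.log_nonneg hm1
    linarith
  have hpow : 1 ≤ ε ^ (-(3 * (d : ℝ) + 10) / 2) := by
    apply Real.one_le_rpow_of_pos_of_le_one_of_nonpos hε (by linarith)
    have : (0 : ℝ) ≤ d := Nat.cast_nonneg d
    linarith
  have hbase : 1 ≤ max C' 1 * A * ε ^ (-(3 * (d : ℝ) + 10) / 2) * (1 + Real.log m) ^ 3 := by
    have h1 : 1 ≤ max C' 1 * A := one_le_mul_of_one_le_of_one_le (le_max_right _ _) hA
    exact one_le_mul_of_one_le_of_one_le (one_le_mul_of_one_le_of_one_le h1 hpow) hlog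
  have hn : 0 < Module.finrank ℝ X := by
    have h1 : (1 : ℝ) ≤ Module.finrank ℝ X :=
      le_trans (Real.one_le_rpow hbase (by linarith)) hfin
    have h2 : 1 ≤ Module.finrank ℝ X := by exact_mod_cast h1
    omega
  obtain ⟨N, hnN, x, hx, hx2⟩ := hDR2 X (Module.finrank ℝ X) rfl hn
  have he1 : ‖(EuclideanSpace.single (0 : Fin (d + 1)) (1 : ℝ) : Eu (d + 1))‖ = 1 := by simp
  have hI := (hre ε hε hε2 X N x hx).resolve_left hno _ he1
  have hR := hrc X N x _ he1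
  have hrad := rad_bound_T2 (d := d) hCC hε hε2 hR hI
  have hD0 : 0 ≤ A * ((CC * CE + 2) * (1 / ε) ^ (d + 3)) := by positivity
  have hsumq : ∀ j, ∑ i, (p j (x i)) ^ q ≤ (A * ((CC * CE + 2) * (1 / ε) ^ (d + 3))) ^ q := by
    intro j
    refine le_trans (hcot j N x) ?_
    have h1 := sqrt_rad2_T2 hSM hx (p j) (hple j)
    apply Real.rpow_le_rpow (by positivity) _ (by linarith)
    apply mul_le_mul_of_nonneg_left _ (by linarith)
    linarith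
  have hfin' : (C' * A * ε ^ (-(3 * (d : ℝ) + 10) / 2) * (1 + Real.log m) ^ 3) ^ q ≤
      Module.finrank ℝ X := by
    refine le_trans ?_ hfin
    have hA0 : 0 ≤ A := by linarith
    have hp0 : 0 ≤ ε ^ (-(3 * (d : ℝ) + 10) / 2) := by linarith
    have hl0 : 0 ≤ (1 + Real.log m) ^ 3 := by linarith
    apply Real.rpow_le_rpow (by positivity) _ (by linarith)
    gcongr
    exact le_max_left _ _
  obtain ⟨s, r, M, J, B, θ, hθ, hθ3, hr, hB, hsB, hJ, hMJ, hM, hQ, hexp⟩ :=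
    hp2 ε hε hε2 m (Module.finrank ℝ X) hm q A hq hA hfin'
  have hsBN : s * B ≤ N := by omega
  obtain ⟨ι, hι⟩ := hE2 m N s B r (fun j i => p j (x i)) θ (ε / 40 / 3) q
    (A * ((CC * CE + 2) * (1 / ε) ^ (d + 3))) hθ hq hD0 hB hsBN hQ hexp
    (fun j i => apply_nonneg (p j) _) hsumq
  have he : 0 < ε / 40 := by positivity
  have hle1 : ∀ j i, p j (x (ι i)) ≤ 1 := fun j i => le_trans (hple j _) (norm_le_one_T2 hx _)
  have hge3 : ∀ i, ∃ j, 1 / 3 ≤ p j (x (ι i)) := by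
    intro i
    obtain ⟨j, hj⟩ := hpge (x (ι i))
    refine ⟨j, ?_⟩
    have h1 := hx2 (ι i)
    have h2 : 0 ≤ p j (x (ι i)) := apply_nonneg (p j) _
    nlinarith
  obtain ⟨B', a, σ, K, hK, hσ, hdisj, hsum, hlow⟩ := hG1a X m s r M J p (fun i => x (ι i)) (ε / 40) θ
    he hθ hθ3 hle1 hge3 (fun j => (hι j).1) hJ hMJ
  obtain ⟨T₀, hT₀⟩ := hcs (ε / 40) he (by linarith) M hM
  obtain ⟨T, hup, hlo⟩ := hG1b X m (d + 1) s M p (fun i => x (ι i)) (ε / 40) θ K B' a σ T₀ he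
    (by linarith) hm (fun j => (hι j).2) hT₀ hK hσ hdisj hsum hlow
  exact hno (scale_T2 hε hε2 hK p hple hpge T hup hlo)

end Pool.Agent.Helper95.FF
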